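import Pool.Agent.Q130.RG.Comb
import Pool.Agent.H38R2.CG3.Link
import Pool.Agent.H38R2.CG.N2

/-!
Robust generation of the class group from the equidistribution of products of tiny primes.
-/

set_option autoImplicit false

namespace Pool.Agent.Q130.RG

open Finset NumberField Pool.Agent.H38R2.CG Pool.Agent.H38R2.CG3
open scoped Classical

section

variable (K : Type) [Field K] [NumberField K]

theorem rr_prod {s : Finset ℕ} (hs : ∀ p ∈ s, p.Prime) :
    N2h.rr K (prodS s) = ∏ p ∈ s, N2h.rr K p := by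
  induction s using Finset.induction_on with
  | empty =>
    have : prodS (∅ : Finset ℕ) = 1 := by simp [prodS]
    rw [this, N2h.rr_one, prod_empty]
  | insert a s ha ih =>
    have hs' := fun p hp => hs p (mem_insert_of_mem hp)
    have h1 : prodS (insert a s) = a * prodS s := prod_insert ha
    have hap := hs a (mem_insert_self _ _)
    rw [h1, N2h.rr_mul K hap.ne_zero (NFh.prodS_pos hs').ne' ?_, ih hs', prod_insert ha]
    rw [hap.coprime_iff_not_dvd]
    intro h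
    exact ha (NFh.mem_of_dvd hs' hap h)

theorem rr_le_two (h2 : Module.finrank ℚ K = 2) {p : ℕ} (hp : p.Prime) : N2h.rr K p ≤ 2 := by
  unfold N2h.rr
  rw [← NFh.card_U]
  by_contra hlt
  push Not at hlt
  obtain ⟨I, hI, J, hJ, L, hL, hIJ, hIL, hJL⟩ := Finset.two_lt_card.1 hlt
  rw [NFh.mem_U] at hI hJ hL
  have hprime : ∀ A : Ideal (𝓞 K), Ideal.absNorm A = p → Prime A := by
    intro A hA
    have hne : A ≠ ⊥ := by
      rintro rfl
      rw [Ideal.absNorm_bot] at hA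
      exact hp.ne_zero hA.symm
    exact Ideal.prime_of_isPrime hne (Ideal.isPrime_of_irreducible_absNorm (hA ▸ hp))
  have hdvd : ∀ A : Ideal (𝓞 K), Ideal.absNorm A = p → A ∣ Ideal.span {(p : 𝓞 K)} := by
    intro A hA
    rw [Ideal.dvd_span_singleton, ← hA]
    exact Ideal.absNorm_mem A
  have heq : ∀ A B : Ideal (𝓞 K), Ideal.absNorm A = p → Ideal.absNorm B = p → A ∣ B → A = B := by
    intro A B hA hB h
    exact associated_iff_eq.1 ((hprime A hA).associated_of_dvd (hprime B hB) h)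
  have hIJd : I * J ∣ Ideal.span {(p : 𝓞 K)} := by
    obtain ⟨M, hM⟩ := hdvd I hI
    have hJ' := hdvd J hJ
    rw [hM] at hJ'
    rcases (hprime J hJ).dvd_or_dvd hJ' with h | h
    · exact absurd (heq J I hJ hI h).symm hIJ
    · rw [hM]
      exact mul_dvd_mul_left I h
  have hnorm : Ideal.absNorm (Ideal.span {(p : 𝓞 K)}) = p ^ 2 := by
    rw [N2h.norm_nat, RingOfIntegers.rank, h2]
  obtain ⟨M, hM⟩ := hIJd
  have h3 := congrArg Ideal.absNorm hM
  rw [hnorm, map_mul, map_mul, hI, hJ] at h3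
  have hM1 : Ideal.absNorm M = 1 := by
    have : p * p * Ideal.absNorm M = p * p * 1 := by rw [← h3]; ring
    exact Nat.eq_of_mul_eq_mul_left (Nat.mul_pos hp.pos hp.pos) this
  rw [Ideal.absNorm_eq_one_iff] at hM1
  have h4 : Ideal.span {(p : 𝓞 K)} = I * J := by
    rw [hM, hM1, Ideal.mul_top]
  have h5 := hdvd L hL
  rw [h4] at h5
  rcases (hprime L hL).dvd_or_dvd h5 with h | h
  · exact hIL (heq L I hL hI h).symm
  · exact hJL (heq L J hL hJ h).symm

/-- number of ideals of norm `n` and class `C` -/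
noncomputable def rc (n : ℕ) (C : ClassGroup (𝓞 K)) : ℕ :=
  Nat.card {I : nonZeroDivisors (Ideal (𝓞 K)) //
    Ideal.absNorm (I : Ideal (𝓞 K)) = n ∧ ClassGroup.mk0 I = C}

theorem sum_rc {n : ℕ} (hn : 0 < n) : ∑ C : ClassGroup (𝓞 K), rc K n C = N2h.rr K n := by
  unfold rc N2h.rr
  have hmem : ∀ I : Ideal (𝓞 K), Ideal.absNorm I = n → I ∈ nonZeroDivisors (Ideal (𝓞 K)) := by
    intro I hI
    rw [← Ideal.absNorm_ne_zero_iff_mem_nonZeroDivisors, hI]
    exact hn.ne'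
  have hfin : ∀ C : ClassGroup (𝓞 K), Finite {I : nonZeroDivisors (Ideal (𝓞 K)) //
      Ideal.absNorm (I : Ideal (𝓞 K)) = n ∧ ClassGroup.mk0 I = C} := by
    intro C
    have : Finite {I : Ideal (𝓞 K) // Ideal.absNorm I = n} :=
      (Ideal.finite_setOfPred_absNorm_eq n).to_subtype
    refine Finite.of_injective (β := {I : Ideal (𝓞 K) // Ideal.absNorm I = n})
      (fun I => ⟨I.1.1, I.2.1⟩) ?_
    intro I J h
    have h1 := congrArg (fun z : {I : Ideal (𝓞 K) // Ideal.absNorm I = n} => z.1) h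
    exact Subtype.ext (Subtype.ext h1)
  rw [← Nat.card_sigma]
  refine Nat.card_congr
    { toFun := fun x => ⟨x.2.1.1, x.2.2.1⟩
      invFun := fun I => ⟨ClassGroup.mk0 ⟨I.1, hmem I.1 I.2⟩, ⟨⟨I.1, hmem I.1 I.2⟩, I.2, rfl⟩⟩
      left_inv := ?_
      right_inv := fun I => rfl }
  rintro ⟨C, ⟨I, h1, h2⟩⟩
  subst h2
  rfl

theorem cnt_eq_rc (y k : ℕ) (C : ClassGroup (𝓞 K)) :
    cnt K y k C = ∑ s ∈ (PP y).powersetCard k, rc K (prodS s) C := rfl

theorem prime_of_mem {y k : ℕ} {s : Finset ℕ} (hs : s ∈ (PP y).powersetCard k) :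
    ∀ p ∈ s, p.Prime := by
  intro p hp
  have h1 := (mem_powersetCard.1 hs).1 hp
  unfold PP at h1
  exact (mem_filter.1 h1).2

theorem sum_cnt (y k : ℕ) : ∑ C : ClassGroup (𝓞 K), cnt K y k C =
    tot (N2h.rr K) (PP y) k := by
  simp_rw [cnt_eq_rc]
  rw [sum_comm]
  unfold tot
  refine sum_congr rfl fun s hs => ?_
  rw [sum_rc K (NFh.prodS_pos (prime_of_mem hs)), rr_prod K (prime_of_mem hs)]

/-- the classes outside a subgroup containing the prime ideals with norms outside `B` -/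
theorem out_le (y k : ℕ) (H : Subgroup (ClassGroup (𝓞 K))) (B : Finset ℕ)
    (hH : ∀ P : nonZeroDivisors (Ideal (𝓞 K)), Ideal.absNorm (P : Ideal (𝓞 K)) ∈ PP y →
      Ideal.absNorm (P : Ideal (𝓞 K)) ∉ B → ClassGroup.mk0 P ∈ H) :
    ∑ C ∈ univ.filter (fun C => C ∉ H), cnt K y k C ≤
      ∑ s ∈ ((PP y).powersetCard k).filter (fun s => ∃ p ∈ B, p ∈ s),
        ∏ p ∈ s, N2h.rr K p := by
  simp_rw [cnt_eq_rc]
  rw [sum_comm, sum_filter]
  refine sum_le_sum fun s hs => ?_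
  have hsp := prime_of_mem hs
  split_ifs with h
  · rw [← rr_prod K hsp, ← sum_rc K (NFh.prodS_pos hsp)]
    exact sum_le_sum_of_subset (filter_subset _ _)
  · refine le_of_eq (sum_eq_zero fun C hC => ?_)
    unfold rc
    rw [Nat.card_eq_zero]
    left
    refine ⟨?_⟩
    rintro ⟨I, hI, hIC⟩
    obtain ⟨L, hL1, -, hL3⟩ := factor K s hsp I hI
    apply (mem_filter.1 hC).2
    rw [← hIC, ← hL3]
    refine Subgroup.multiset_prod_mem _ _ fun c hc => ?_
    obtain ⟨P, hP, rfl⟩ := Multiset.mem_map.1 hc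
    have h1 := (hL1 P hP).2
    refine hH P ((mem_powersetCard.1 hs).1 h1) fun hB => ?_
    exact h ⟨_, hB, h1⟩

/-- the distribution is close to uniform on every set of classes -/
theorem tv {y k : ℕ} {ε : ℝ} (hε : 0 < ε) (h : Equi K y k (ε ^ 2))
    (A : Finset (ClassGroup (𝓞 K))) :
    |((∑ C ∈ A, cnt K y k C : ℕ) : ℝ) / ((∑ C : ClassGroup (𝓞 K), cnt K y k C : ℕ) : ℝ) -
      (A.card : ℝ) / Nat.card (ClassGroup (𝓞 K))| ≤ ε := by
  obtain ⟨hpos, hle⟩ := h
  set H : ℝ := (Nat.card (ClassGroup (𝓞 K)) : ℝ) with hH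
  have hH0 : 0 < H := by rw [hH]; exact_mod_cast Nat.card_pos
  set T : ℕ := ∑ C : ClassGroup (𝓞 K), cnt K y k C with hT
  have hAH : (A.card : ℝ) ≤ H := by
    rw [hH, Nat.card_eq_fintype_card]
    exact_mod_cast card_le_univ A
  have e1 : ((∑ C ∈ A, cnt K y k C : ℕ) : ℝ) / (T : ℝ) - (A.card : ℝ) / H =
      ∑ C ∈ A, ((cnt K y k C : ℝ) / (T : ℝ) - 1 / H) := by
    rw [sum_sub_distrib, sum_const, nsmul_eq_mul, ← sum_div]
    push_cast
    ring
  rw [e1]
  refine abs_le_of_sq_le_sq ?_ hε.le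
  have h1 : (∑ C ∈ A, ((cnt K y k C : ℝ) / (T : ℝ) - 1 / H)) ^ 2 ≤
      A.card * ∑ C ∈ A, ((cnt K y k C : ℝ) / (T : ℝ) - 1 / H) ^ 2 := sq_sum_le_card_mul_sum_sq
  have h2 : ∑ C ∈ A, ((cnt K y k C : ℝ) / (T : ℝ) - 1 / H) ^ 2 ≤
      ∑ C : ClassGroup (𝓞 K), ((cnt K y k C : ℝ) / (T : ℝ) - 1 / H) ^ 2 :=
    sum_le_sum_of_subset_of_nonneg (subset_univ _) fun _ _ _ => sq_nonneg _
  have h3 : ∑ C : ClassGroup (𝓞 K), ((cnt K y k C : ℝ) / (T : ℝ) - 1 / H) ^ 2 ≤
      ε ^ 2 / H := by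
    rw [div_le_iff₀ hH0] at hle
    refine hle.trans (le_of_eq ?_)
    field_simp
  have h4 : (0 : ℝ) ≤ A.card := Nat.cast_nonneg _
  calc (∑ C ∈ A, ((cnt K y k C : ℝ) / (T : ℝ) - 1 / H)) ^ 2
      ≤ A.card * (ε ^ 2 / H) := h1.trans (mul_le_mul_of_nonneg_left (h2.trans h3) h4)
    _ ≤ H * (ε ^ 2 / H) := mul_le_mul_of_nonneg_right hAH (by positivity)
    _ = ε ^ 2 := by field_simp

/-- the primes of `(y, 2y]` which are norms of ideals -/
noncomputable def nrms (y : ℕ) : Finset ℕ :=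
  (PP y).filter (fun p => ∃ P : Ideal (𝓞 K), Ideal.absNorm P = p)

theorem nrms_eq (y : ℕ) : nrms K y = (PP y).filter (fun p => 1 ≤ N2h.rr K p) := by
  unfold nrms
  refine filter_congr fun p hp => ?_
  unfold N2h.rr
  rw [← NFh.card_U, Nat.one_le_iff_ne_zero, Ne, Finset.card_eq_zero, ← Ne,
    ← Finset.nonempty_iff_ne_empty]
  constructor
  · rintro ⟨P, hP⟩
    exact ⟨P, NFh.mem_U.2 hP⟩
  · rintro ⟨P, hP⟩
    exact ⟨P, NFh.mem_U.1 hP⟩

/-- robust generation -/
theorem robust (h2 : Module.finrank ℚ K = 2) {y k : ℕ} {ε : ℝ} (hε : 0 < ε) (hε2 : ε < 1 / 2)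
    (h : Equi K y k (ε ^ 2)) (T : Finset ℕ)
    (hH : Subgroup.closure {c | ∃ P : nonZeroDivisors (Ideal (𝓞 K)),
      Ideal.absNorm (P : Ideal (𝓞 K)) ∈ T ∧ ClassGroup.mk0 P = c} ≠ ⊤) :
    0 < (nrms K y \ T).card ∧
      (1 / 2 - ε) * ((nrms K y).card : ℝ) ≤ 2 * k * ((nrms K y \ T).card : ℝ) := by
  set H := Subgroup.closure {c | ∃ P : nonZeroDivisors (Ideal (𝓞 K)),
      Ideal.absNorm (P : Ideal (𝓞 K)) ∈ T ∧ ClassGroup.mk0 P = c} with hHdef
  set B := nrms K y \ T with hB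
  have hBP : B ⊆ PP y := sdiff_subset.trans (filter_subset _ _)
  have hout := out_le K y k H B (by
    intro P hP hPB
    apply Subgroup.subset_closure
    refine ⟨P, ?_, rfl⟩
    by_contra hT
    apply hPB
    rw [hB, mem_sdiff]
    refine ⟨?_, hT⟩
    unfold nrms
    exact mem_filter.2 ⟨hP, P, rfl⟩)
  have hkey := key (N2h.rr K) (PP y) k B (fun p hp => rr_le_two K h2 (by
    unfold PP at hp
    exact (mem_filter.1 hp).2)) hBP
  rw [← nrms_eq, ← sum_cnt] at hkey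
  set M := ∑ s ∈ ((PP y).powersetCard k).filter (fun s => ∃ p ∈ B, p ∈ s),
        ∏ p ∈ s, N2h.rr K p with hM
  set Tt : ℕ := ∑ C : ClassGroup (𝓞 K), cnt K y k C with hTt
  have hTpos : (0 : ℝ) < Tt := by exact_mod_cast h.1
  -- half of the classes are outside
  have hhalf : (Nat.card (ClassGroup (𝓞 K)) : ℝ) / 2 ≤
      ((univ.filter (fun C => C ∉ H)).card : ℝ) := by
    have h5 : (univ.filter (fun C => C ∈ H)).card = Nat.card H := by
      rw [Nat.card_eq_fintype_card, Fintype.card_subtype]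
    have h6 : H.index ≠ 1 := fun h => hH (Subgroup.index_eq_one.1 h)
    have h7 : H.index ≠ 0 := Subgroup.index_ne_zero_of_finite
    have h8 : 2 ≤ H.index := by omega
    have h9 := H.card_mul_index
    have h10 : Nat.card H * 2 ≤ Nat.card (ClassGroup (𝓞 K)) := by
      rw [← h9]
      exact Nat.mul_le_mul_left _ h8
    have h11 := card_filter_add_card_filter_not (s := (univ : Finset (ClassGroup (𝓞 K))))
      (fun C => C ∈ H)
    rw [h5, card_univ, ← Nat.card_eq_fintype_card] at h11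
    have h12 : Nat.card (ClassGroup (𝓞 K)) ≤ 2 * (univ.filter (fun C => C ∉ H)).card := by omega
    have h13 : (Nat.card (ClassGroup (𝓞 K)) : ℝ) ≤
        2 * ((univ.filter (fun C => C ∉ H)).card : ℝ) := by exact_mod_cast h12
    linarith
  have htv := (abs_le.1 (tv K hε h (univ.filter (fun C => C ∉ H)))).1
  have hc0 : (0 : ℝ) < Nat.card (ClassGroup (𝓞 K)) := by exact_mod_cast Nat.card_pos
  have h14 : (1 : ℝ) / 2 ≤ ((univ.filter (fun C => C ∉ H)).card : ℝ) /
      Nat.card (ClassGroup (𝓞 K)) := by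
    rw [le_div_iff₀ hc0]; linarith
  have h15 : (1 / 2 - ε) * Tt ≤ ((∑ C ∈ univ.filter (fun C => C ∉ H), cnt K y k C : ℕ) : ℝ) := by
    rw [← le_div_iff₀ hTpos]
    linarith
  have h16 : (1 / 2 - ε) * Tt ≤ (M : ℝ) := h15.trans (by exact_mod_cast hout)
  constructor
  · by_contra hneg
    have hB0 : B = ∅ := by
      rw [← card_eq_zero]; omega
    have hM0 : M = 0 := by
      rw [hM]
      refine sum_eq_zero fun s hs => ?_
      obtain ⟨p, hp, -⟩ := (mem_filter.1 hs).2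
      rw [hB0] at hp
      exact absurd hp (notMem_empty p)
    rw [hM0] at h16
    have : 0 < (1 / 2 - ε) * (Tt : ℝ) := mul_pos (by linarith) hTpos
    push_cast at h16
    linarith
  · have h17 : ((nrms K y).card : ℝ) * M ≤ 2 * k * B.card * Tt := by exact_mod_cast hkey
    have h18 : ((nrms K y).card : ℝ) * ((1 / 2 - ε) * Tt) ≤ 2 * k * B.card * Tt :=
      (mul_le_mul_of_nonneg_left h16 (Nat.cast_nonneg _)).trans h17
    have h19 : ((1 / 2 - ε) * ((nrms K y).card : ℝ)) * Tt ≤ (2 * k * (B.card : ℝ)) * Tt := by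
      linarith
    exact le_of_mul_le_mul_right h19 hTpos

end

end Pool.Agent.Q130.RG
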