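import Mathlib

/-!
Products of distinct primes and their weights: no prime occurs much more often than the others.
-/

set_option autoImplicit false

namespace Pool.Agent.Q130.RG

open Finset

/-- the sum of the weights of all `k`-subsets -/
def tot (r : ℕ → ℕ) (P : Finset ℕ) (k : ℕ) : ℕ := ∑ s ∈ P.powersetCard k, ∏ p ∈ s, r p

/-- the sum of the weights of the `k`-subsets containing `p` -/
def occ (r : ℕ → ℕ) (P : Finset ℕ) (k : ℕ) (p : ℕ) : ℕ :=
  ∑ s ∈ (P.powersetCard k).filter (fun s => p ∈ s), ∏ p ∈ s, r p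

theorem sum_occ (r : ℕ → ℕ) (P : Finset ℕ) (k : ℕ) :
    ∑ p ∈ P, occ r P k p = k * tot r P k := by
  unfold occ tot
  simp_rw [sum_filter]
  rw [sum_comm, mul_sum]
  refine sum_congr rfl fun s hs => ?_
  rw [← sum_filter, sum_const, smul_eq_mul]
  congr 1
  obtain ⟨h1, h2⟩ := mem_powersetCard.1 hs
  rw [← h2]
  congr 1
  ext p
  rw [mem_filter]
  exact ⟨fun h => h.2, fun h => ⟨h1 h, h⟩⟩

theorem occ_le (r : ℕ → ℕ) (P : Finset ℕ) (k : ℕ) {p q : ℕ} (hp : p ∈ P) (hq : q ∈ P)
    (hp2 : r p ≤ 2) (hq1 : 1 ≤ r q) : occ r P k p ≤ 2 * occ r P k q := by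
  classical
  unfold occ
  rw [mul_sum]
  have hmem : ∀ x, Equiv.swap p q x ∈ P ↔ x ∈ P := by
    intro x
    rcases eq_or_ne x p with rfl | hxp
    · rw [Equiv.swap_apply_left]; exact ⟨fun _ => hp, fun _ => hq⟩
    rcases eq_or_ne x q with rfl | hxq
    · rw [Equiv.swap_apply_right]; exact ⟨fun _ => hq, fun _ => hp⟩
    rw [Equiv.swap_apply_of_ne_of_ne hxp hxq]
  have hmap : ∀ (s : Finset ℕ), s ∈ P.powersetCard k →
      s.map (Equiv.swap p q).toEmbedding ∈ P.powersetCard k := by
    intro s hs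
    obtain ⟨h1, h2⟩ := mem_powersetCard.1 hs
    rw [mem_powersetCard]
    refine ⟨fun x hx => ?_, by rw [card_map]; exact h2⟩
    obtain ⟨y, hy, rfl⟩ := mem_map.1 hx
    exact (hmem y).2 (h1 hy)
  have hinv : ∀ s : Finset ℕ, (s.map (Equiv.swap p q).toEmbedding).map
      (Equiv.swap p q).toEmbedding = s := by
    intro s
    ext x
    simp
  rw [sum_bij' (t := (P.powersetCard k).filter (fun s => q ∈ s))
    (g := fun s => ∏ x ∈ s.map (Equiv.swap p q).toEmbedding, r x)
    (fun s _ => s.map (Equiv.swap p q).toEmbedding)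
    (fun s _ => s.map (Equiv.swap p q).toEmbedding) ?_ ?_ ?_ ?_ ?_]
  · refine sum_le_sum fun s hs => ?_
    obtain ⟨hs1, hqs⟩ := mem_filter.1 hs
    by_cases hps : p ∈ s
    · have : s.map (Equiv.swap p q).toEmbedding = s := by
        ext x
        rw [mem_map_equiv, Equiv.symm_swap]
        rcases eq_or_ne x p with rfl | hxp
        · rw [Equiv.swap_apply_left]; exact ⟨fun _ => hps, fun _ => hqs⟩
        rcases eq_or_ne x q with rfl | hxq
        · rw [Equiv.swap_apply_right]; exact ⟨fun _ => hqs, fun _ => hps⟩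
        rw [Equiv.swap_apply_of_ne_of_ne hxp hxq]
      rw [this]
      omega
    · rw [prod_map, ← mul_prod_erase s _ hqs, ← mul_prod_erase s r hqs]
      have h1 : ∏ x ∈ s.erase q, r ((Equiv.swap p q).toEmbedding x) = ∏ x ∈ s.erase q, r x := by
        refine prod_congr rfl fun x hx => ?_
        obtain ⟨hxq, hxs⟩ := mem_erase.1 hx
        have hxp : x ≠ p := fun h => hps (h ▸ hxs)
        change r (Equiv.swap p q x) = r x
        rw [Equiv.swap_apply_of_ne_of_ne hxp hxq]
      rw [h1]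
      change r (Equiv.swap p q q) * _ ≤ _
      rw [Equiv.swap_apply_right]
      nlinarith [Nat.zero_le (∏ x ∈ s.erase q, r x)]
  · intro s hs
    obtain ⟨h1, h2⟩ := mem_filter.1 hs
    refine mem_filter.2 ⟨hmap s h1, ?_⟩
    rw [mem_map_equiv, Equiv.symm_swap, Equiv.swap_apply_right]
    exact h2
  · intro s hs
    obtain ⟨h1, h2⟩ := mem_filter.1 hs
    refine mem_filter.2 ⟨hmap s h1, ?_⟩
    rw [mem_map_equiv, Equiv.symm_swap, Equiv.swap_apply_left]
    exact h2
  · intro s _; exact hinv s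
  · intro s _; exact hinv s
  · intro s _
    rw [hinv]

/-- the weight of the sets meeting `B` -/
theorem meet_le (r : ℕ → ℕ) (P : Finset ℕ) (k : ℕ) (B : Finset ℕ) :
    ∑ s ∈ (P.powersetCard k).filter (fun s => ∃ p ∈ B, p ∈ s), ∏ p ∈ s, r p ≤
      ∑ p ∈ B, occ r P k p := by
  classical
  unfold occ
  simp_rw [sum_filter]
  rw [sum_comm]
  refine sum_le_sum fun s _ => ?_
  split_ifs with h
  · obtain ⟨p, hpB, hps⟩ := h
    have := single_le_sum (f := fun p => if p ∈ s then ∏ p ∈ s, r p else 0)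
      (fun _ _ => Nat.zero_le _) hpB
    simpa [hps] using this
  · exact Nat.zero_le _

/-- If all weights are at most two, a set `B` is met by a random `k`-set with probability at most
`2 k |B|` divided by the number of nonzero weights. -/
theorem key (r : ℕ → ℕ) (P : Finset ℕ) (k : ℕ) (B : Finset ℕ) (hr : ∀ p ∈ P, r p ≤ 2)
    (hB : B ⊆ P) :
    (P.filter (fun p => 1 ≤ r p)).card *
      ∑ s ∈ (P.powersetCard k).filter (fun s => ∃ p ∈ B, p ∈ s), ∏ p ∈ s, r p ≤
      2 * k * B.card * tot r P k := by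
  refine (Nat.mul_le_mul_left _ (meet_le r P k B)).trans ?_
  rw [mul_sum]
  have h : ∀ p ∈ B, (P.filter (fun p => 1 ≤ r p)).card * occ r P k p ≤ 2 * k * tot r P k := by
    intro p hp
    calc (P.filter (fun p => 1 ≤ r p)).card * occ r P k p
        = ∑ q ∈ P.filter (fun p => 1 ≤ r p), occ r P k p := by rw [sum_const, smul_eq_mul]
      _ ≤ ∑ q ∈ P.filter (fun p => 1 ≤ r p), 2 * occ r P k q := by
          refine sum_le_sum fun q hq => ?_
          obtain ⟨h1, h2⟩ := mem_filter.1 hq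
          exact occ_le r P k (hB hp) h1 (hr p (hB hp)) h2
      _ ≤ ∑ q ∈ P, 2 * occ r P k q := sum_le_sum_of_subset (filter_subset _ _)
      _ = 2 * k * tot r P k := by rw [← mul_sum, sum_occ]; ring
  refine (sum_le_sum h).trans ?_
  rw [sum_const, smul_eq_mul]
  exact le_of_eq (by ring)

end Pool.Agent.Q130.RG
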