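import Pool.Agent.Q130.RG.Cls

/-!
Majorities of the products of tiny primes.
-/

set_option autoImplicit false

namespace Pool.Agent.Q130.RG

open Finset NumberField Pool.Agent.H38R2.CG Pool.Agent.H38R2.CG3
open scoped Classical

section group

variable {G : Type} [CommGroup G] [Fintype G]

/-- a set `A` with more than half of the elements: many representations as products -/
theorem many_reps {ι : Type} (J : Finset ι) (g : ι → G) (F : G → ℕ) {R ε : ℝ} (hε : 0 < ε)
    (hR : 0 < R) (hF : ∀ C, (J.filter (fun i => g i = C)).card ≤ F C)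
    (htv : ∀ A : Finset G, (∑ C ∈ A, F C : ℕ) / R - (A.card : ℝ) / Nat.card G ≤ ε / 4)
    (hJ : (1 / 2 + ε) * R ≤ J.card) (c : G) :
    ε ^ 3 / 8 * R ^ 2 / Nat.card G ≤
      (((J ×ˢ J).filter (fun z => g z.1 * g z.2 = c)).card : ℝ) := by
  set h : ℝ := (Nat.card G : ℝ) with hh
  have hh0 : 0 < h := by rw [hh]; exact_mod_cast Nat.card_pos
  set f : G → ℕ := fun C => (J.filter (fun i => g i = C)).card with hf
  have hsum : ∑ C, f C = J.card := (card_eq_sum_card_fiberwise (fun i _ => mem_univ _)).symm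
  set τ : ℝ := ε / 2 * R / h with hτ
  have hτ0 : 0 ≤ τ := by positivity
  set A : Finset G := univ.filter (fun C => τ ≤ f C) with hA
  -- `A` has more than half of the elements
  have hAsum : (J.card : ℝ) - ε / 2 * R ≤ ((∑ C ∈ A, f C : ℕ) : ℝ) := by
    have h1 := sum_filter_add_sum_filter_not (univ : Finset G) (fun C => τ ≤ (f C : ℝ))
      (fun C => (f C : ℝ))
    have h2 : ∑ C ∈ univ.filter (fun C => ¬ τ ≤ (f C : ℝ)), (f C : ℝ) ≤ ε / 2 * R := by
      calc ∑ C ∈ univ.filter (fun C => ¬ τ ≤ (f C : ℝ)), (f C : ℝ)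
          ≤ ∑ C ∈ univ.filter (fun C => ¬ τ ≤ (f C : ℝ)), τ :=
            sum_le_sum fun C hC => (not_le.1 (mem_filter.1 hC).2).le
        _ ≤ ∑ _C : G, τ := sum_le_sum_of_subset_of_nonneg (filter_subset _ _) fun _ _ _ => hτ0
        _ = ε / 2 * R := by
            rw [sum_const, card_univ, nsmul_eq_mul, ← Nat.card_eq_fintype_card, ← hh, hτ]
            field_simp
    have h3 : ∑ C, (f C : ℝ) = J.card := by exact_mod_cast hsum
    rw [h3] at h1
    push_cast
    linarith
  have hA1 : (1 / 2 + ε / 4) * h ≤ A.card := by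
    have h1 := htv A
    have h2 : ((∑ C ∈ A, f C : ℕ) : ℝ) ≤ ((∑ C ∈ A, F C : ℕ) : ℝ) := by
      exact_mod_cast sum_le_sum fun C _ => hF C
    have h3 : (1 / 2 + ε / 2) * R ≤ ((∑ C ∈ A, F C : ℕ) : ℝ) := by linarith
    have h4 : 1 / 2 + ε / 2 ≤ ((∑ C ∈ A, F C : ℕ) : ℝ) / R := by
      rw [le_div_iff₀ hR]; exact h3
    have h5 : 1 / 2 + ε / 4 ≤ (A.card : ℝ) / h := by linarith
    rwa [le_div_iff₀ hh0] at h5
  -- the pairs
  set B : Finset G := A.filter (fun x => x⁻¹ * c ∈ A) with hB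
  have hB1 : ε / 2 * h ≤ B.card := by
    have h1 := card_filter_add_card_filter_not (s := A) (fun x => x⁻¹ * c ∈ A)
    have h2 : (A.filter (fun x => ¬ x⁻¹ * c ∈ A)).card ≤ Aᶜ.card := by
      refine card_le_card_of_injOn (fun x => x⁻¹ * c) (fun x hx => ?_) (fun x _ y _ hxy => ?_)
      · have h3 := (mem_filter.1 (mem_coe.1 hx)).2
        exact mem_coe.2 (mem_compl.2 h3)
      · have h3 : x⁻¹ = y⁻¹ := mul_right_cancel hxy
        exact inv_injective h3
    rw [card_compl, ← Nat.card_eq_fintype_card] at h2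
    have h3 : A.card ≤ Nat.card G := by
      rw [Nat.card_eq_fintype_card]; exact card_le_univ A
    have h4 : (((A.filter (fun x => ¬ x⁻¹ * c ∈ A)).card : ℕ) : ℝ) ≤ h - A.card := by
      rw [hh, ← Nat.cast_sub h3]
      exact_mod_cast h2
    have h5 : ((B.card : ℕ) : ℝ) + ((A.filter (fun x => ¬ x⁻¹ * c ∈ A)).card : ℝ) = A.card := by
      rw [hB]
      exact_mod_cast h1
    linarith
  have hpairs : ∑ x : G, f x * f (x⁻¹ * c) =
      ((J ×ˢ J).filter (fun z => g z.1 * g z.2 = c)).card := by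
    rw [card_eq_sum_card_fiberwise (f := fun z => g z.1) (t := univ) (fun i _ => mem_univ _)]
    refine sum_congr rfl fun x _ => ?_
    rw [hf]
    simp only
    rw [← card_product]
    congr 1
    ext ⟨i, j⟩
    simp only [mem_product, mem_filter]
    constructor
    · rintro ⟨⟨h1, h2⟩, h3, h4⟩
      refine ⟨⟨⟨h1, h3⟩, ?_⟩, h2⟩
      rw [h2, h4, mul_inv_cancel_left]
    · rintro ⟨⟨⟨h1, h3⟩, h4⟩, h2⟩
      refine ⟨⟨h1, h2⟩, h3, ?_⟩
      rw [← h4, h2, inv_mul_cancel_left]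
  rw [← hpairs]
  have h1 : (B.card : ℝ) * τ ^ 2 ≤ ((∑ x : G, f x * f (x⁻¹ * c) : ℕ) : ℝ) := by
    push_cast
    calc (B.card : ℝ) * τ ^ 2 = ∑ x ∈ B, τ ^ 2 := by rw [sum_const, nsmul_eq_mul]
      _ ≤ ∑ x ∈ B, (f x : ℝ) * f (x⁻¹ * c) := by
          refine sum_le_sum fun x hx => ?_
          obtain ⟨h2, h3⟩ := mem_filter.1 hx
          have h4 : τ ≤ f x := (mem_filter.1 h2).2
          have h5 : τ ≤ f (x⁻¹ * c) := (mem_filter.1 h3).2
          rw [sq]
          exact mul_le_mul h4 h5 hτ0 (hτ0.trans h4)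
      _ ≤ ∑ x : G, (f x : ℝ) * f (x⁻¹ * c) :=
          sum_le_sum_of_subset_of_nonneg (subset_univ _) fun _ _ _ => by positivity
  refine le_trans ?_ h1
  have h2 : ε / 2 * h * τ ^ 2 ≤ (B.card : ℝ) * τ ^ 2 :=
    mul_le_mul_of_nonneg_right hB1 (by positivity)
  refine le_trans (le_of_eq ?_) h2
  rw [hτ]
  field_simp
  ring

end group

section

variable (K : Type) [Field K] [NumberField K]

theorem prodS_inj {y k : ℕ} {s t : Finset ℕ} (hs : s ∈ (PP y).powersetCard k)
    (ht : t ∈ (PP y).powersetCard k) (h : prodS s = prodS t) : s = t := by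
  have hsp := prime_of_mem hs
  have htp := prime_of_mem ht
  ext p
  constructor
  · intro hp
    refine NFh.mem_of_dvd htp (hsp p hp) ?_
    rw [← h]
    exact dvd_prod_of_mem _ hp
  · intro hp
    refine NFh.mem_of_dvd hsp (htp p hp) ?_
    rw [h]
    exact dvd_prod_of_mem _ hp

/-- the nonzero ideals whose norm is a product of `k` distinct primes of `(y, 2y]` -/
theorem finite_products (y k : ℕ) : {I : nonZeroDivisors (Ideal (𝓞 K)) |
    ∃ s ∈ (PP y).powersetCard k, Ideal.absNorm (I : Ideal (𝓞 K)) = prodS s}.Finite := by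
  have h1 : {I : nonZeroDivisors (Ideal (𝓞 K)) |
      ∃ s ∈ (PP y).powersetCard k, Ideal.absNorm (I : Ideal (𝓞 K)) = prodS s} ⊆
      ⋃ s ∈ ((PP y).powersetCard k : Set (Finset ℕ)), {I : nonZeroDivisors (Ideal (𝓞 K)) |
        Ideal.absNorm (I : Ideal (𝓞 K)) ≤ prodS s} := by
    rintro I ⟨s, hs, hI⟩
    exact Set.mem_biUnion (mem_coe.2 hs) hI.le
  exact (Set.Finite.biUnion (finite_toSet _) fun s _ =>
    Ideal.finite_setOfPred_absNorm_le₀ (S := 𝓞 K) (prodS s)).subset h1

noncomputable def Uf (y k : ℕ) : Finset (nonZeroDivisors (Ideal (𝓞 K))) :=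
  (finite_products K y k).toFinset

theorem mem_Uf {y k : ℕ} {I : nonZeroDivisors (Ideal (𝓞 K))} : I ∈ Uf K y k ↔
    ∃ s ∈ (PP y).powersetCard k, Ideal.absNorm (I : Ideal (𝓞 K)) = prodS s := by
  unfold Uf
  rw [Set.Finite.mem_toFinset]
  rfl

theorem card_Uf (y k : ℕ) (C : ClassGroup (𝓞 K)) :
    ((Uf K y k).filter (fun I => ClassGroup.mk0 I = C)).card = cnt K y k C := by
  rw [cnt_eq_rc]
  have h1 : ∀ s ∈ (PP y).powersetCard k, ((Uf K y k).filter
      (fun I : nonZeroDivisors (Ideal (𝓞 K)) =>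
        Ideal.absNorm (I : Ideal (𝓞 K)) = prodS s ∧ ClassGroup.mk0 I = C)).card =
      rc K (prodS s) C := by
    intro s hs
    unfold rc
    refine (Nat.subtype_card _ fun I => ?_).symm
    rw [mem_filter, mem_Uf]
    exact ⟨fun h => h.2, fun h => ⟨⟨s, hs, h.1⟩, h⟩⟩
  have h2 : (Uf K y k).filter (fun I => ClassGroup.mk0 I = C) =
      ((PP y).powersetCard k).biUnion (fun s => (Uf K y k).filter
        (fun I : nonZeroDivisors (Ideal (𝓞 K)) =>
          Ideal.absNorm (I : Ideal (𝓞 K)) = prodS s ∧ ClassGroup.mk0 I = C)) := by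
    ext I
    simp only [mem_filter, mem_biUnion]
    constructor
    · rintro ⟨h, hC⟩
      obtain ⟨s, hs, hI⟩ := (mem_Uf K).1 h
      exact ⟨s, hs, h, hI, hC⟩
    · rintro ⟨s, hs, h, hI, hC⟩
      exact ⟨h, hC⟩
  rw [h2, card_biUnion]
  · exact sum_congr rfl h1
  · intro s hs t ht hne
    show Disjoint _ _
    rw [disjoint_left]
    intro I hI hI'
    apply hne
    refine prodS_inj (mem_coe.1 hs) (mem_coe.1 ht) ?_
    rw [← (mem_filter.1 hI).2.1, (mem_filter.1 hI').2.1]

theorem sum_Uf (y k : ℕ) : ∑ C : ClassGroup (𝓞 K), cnt K y k C = (Uf K y k).card := by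
  rw [card_eq_sum_card_fiberwise (f := fun I => ClassGroup.mk0 I)
    (t := (univ : Finset (ClassGroup (𝓞 K)))) (fun i _ => mem_univ _)]
  exact sum_congr rfl fun C _ => (card_Uf K y k C).symm

/-- every majority of the products represents every class often as a product of two -/
theorem majority {y k : ℕ} {ε : ℝ} (hε : 0 < ε) (h : Equi K y k ((ε / 4) ^ 2))
    (J : Finset (nonZeroDivisors (Ideal (𝓞 K)))) (hJU : J ⊆ Uf K y k)
    (hJ : (1 / 2 + ε) * (Uf K y k).card ≤ (J.card : ℝ)) (c : ClassGroup (𝓞 K)) :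
    ε ^ 3 / 8 * ((Uf K y k).card : ℝ) ^ 2 / Nat.card (ClassGroup (𝓞 K)) ≤
      (((J ×ˢ J).filter (fun z => ClassGroup.mk0 z.1 * ClassGroup.mk0 z.2 = c)).card : ℝ) := by
  have hpos : 0 < (Uf K y k).card := by
    rw [← sum_Uf]; exact h.1
  refine many_reps J (fun I => ClassGroup.mk0 I) (cnt K y k) hε (by exact_mod_cast hpos)
    (fun C => ?_) (fun A => ?_) hJ c
  · rw [← card_Uf]
    exact card_le_card (filter_subset_filter _ hJU)
  · have h1 := (abs_le.1 (tv K (by positivity) h A)).2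
    rwa [sum_Uf] at h1

/-- the products without prime factors with norm in `B` -/
theorem avoid (h2 : Module.finrank ℚ K = 2) (y k : ℕ) (B : Finset ℕ) (hB : B ⊆ PP y) :
    ((nrms K y).card : ℝ) * (((Uf K y k).filter
      (fun I : nonZeroDivisors (Ideal (𝓞 K)) => ∃ p ∈ B, p ∣ Ideal.absNorm (I : Ideal (𝓞 K)))).card : ℝ) ≤
      2 * k * B.card * (Uf K y k).card := by
  have hkey := key (N2h.rr K) (PP y) k B (fun p hp => rr_le_two K h2 (by
    unfold PP at hp
    exact (mem_filter.1 hp).2)) hB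
  rw [← nrms_eq, ← sum_cnt, sum_Uf] at hkey
  have h3 : ((Uf K y k).filter (fun I : nonZeroDivisors (Ideal (𝓞 K)) =>
      ∃ p ∈ B, p ∣ Ideal.absNorm (I : Ideal (𝓞 K)))).card ≤
      ∑ s ∈ ((PP y).powersetCard k).filter (fun s => ∃ p ∈ B, p ∈ s),
        ∏ p ∈ s, N2h.rr K p := by
    have h4 : (Uf K y k).filter (fun I : nonZeroDivisors (Ideal (𝓞 K)) =>
        ∃ p ∈ B, p ∣ Ideal.absNorm (I : Ideal (𝓞 K))) ⊆
        (((PP y).powersetCard k).filter (fun s => ∃ p ∈ B, p ∈ s)).biUnion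
          (fun s => (Uf K y k).filter (fun I : nonZeroDivisors (Ideal (𝓞 K)) =>
            Ideal.absNorm (I : Ideal (𝓞 K)) = prodS s)) := by
      intro I hI
      obtain ⟨h5, p, hp, hpI⟩ := mem_filter.1 hI
      obtain ⟨s, hs, hIs⟩ := (mem_Uf K).1 h5
      rw [hIs] at hpI
      have h6 : p.Prime := by
        have := hB hp
        unfold PP at this
        exact (mem_filter.1 this).2
      refine mem_biUnion.2 ⟨s, mem_filter.2 ⟨hs, p, hp, NFh.mem_of_dvd (prime_of_mem hs) h6 hpI⟩,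
        mem_filter.2 ⟨h5, hIs⟩⟩
    refine (card_le_card h4).trans (card_biUnion_le.trans (sum_le_sum fun s hs => ?_))
    have hs' := (mem_filter.1 hs).1
    have hsp := prime_of_mem hs'
    rw [← rr_prod K hsp]
    unfold N2h.rr
    have hmem : ∀ I : Ideal (𝓞 K), Ideal.absNorm I = prodS s →
        I ∈ nonZeroDivisors (Ideal (𝓞 K)) := by
      intro I hI
      rw [← Ideal.absNorm_ne_zero_iff_mem_nonZeroDivisors, hI]
      exact (NFh.prodS_pos hsp).ne'
    rw [← NFh.card_U]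
    refine card_le_card_of_injOn (fun I => (I : Ideal (𝓞 K))) (fun I hI => ?_)
      (fun I _ I' _ h => Subtype.ext h)
    exact mem_coe.2 (NFh.mem_U.2 (mem_filter.1 (mem_coe.1 hI)).2)
  exact_mod_cast (Nat.mul_le_mul_left _ h3).trans hkey

/-- the index of the subgroup generated by a set of products -/
theorem index_le {y k : ℕ} {ε : ℝ} (hε : 0 < ε) (h : Equi K y k ((ε / 4) ^ 2))
    (J : Finset (nonZeroDivisors (Ideal (𝓞 K)))) (hJU : J ⊆ Uf K y k)
    (H : Subgroup (ClassGroup (𝓞 K))) (hH : ∀ I ∈ J, ClassGroup.mk0 I ∈ H) :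
    (H.index : ℝ) * ((J.card : ℝ) - ε * (Uf K y k).card) ≤ (Uf K y k).card := by
  have hpos : 0 < (Uf K y k).card := by
    rw [← sum_Uf]; exact h.1
  have hR : (0 : ℝ) < (Uf K y k).card := by exact_mod_cast hpos
  have h1 := (abs_le.1 (tv K (by positivity) h (univ.filter (fun C => C ∈ H)))).2
  rw [sum_Uf] at h1
  have h2 : (J.card : ℝ) ≤ ((∑ C ∈ univ.filter (fun C => C ∈ H), cnt K y k C : ℕ) : ℝ) := by
    have h3 : J.card = ∑ C ∈ univ.filter (fun C => C ∈ H),
        (J.filter (fun I => ClassGroup.mk0 I = C)).card :=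
      card_eq_sum_card_fiberwise (fun I hI => mem_coe.2 (mem_filter.2 ⟨mem_univ _, hH I hI⟩))
    rw [h3]
    refine Nat.cast_le.2 (sum_le_sum fun C _ => ?_)
    rw [← card_Uf]
    exact card_le_card (filter_subset_filter _ hJU)
  have h5 : (univ.filter (fun C => C ∈ H)).card = Nat.card H := by
    rw [Nat.card_eq_fintype_card, Fintype.card_subtype]
  have h6 : (0 : ℝ) < H.index := by
    exact_mod_cast Nat.pos_of_ne_zero H.index_ne_zero_of_finite
  have h7 : (0 : ℝ) < Nat.card H := by exact_mod_cast Nat.card_pos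
  have h8 : ((univ.filter (fun C => C ∈ H)).card : ℝ) / Nat.card (ClassGroup (𝓞 K)) =
      1 / H.index := by
    rw [h5, ← H.card_mul_index]
    push_cast
    field_simp
  rw [h8] at h1
  have h9 : ((∑ C ∈ univ.filter (fun C => C ∈ H), cnt K y k C : ℕ) : ℝ) ≤
      (1 / H.index + ε / 4) * (Uf K y k).card := by
    rw [← div_le_iff₀ hR]
    linarith
  have h10 : (J.card : ℝ) - ε * (Uf K y k).card ≤ 1 / H.index * (Uf K y k).card := by
    have h11 : 0 ≤ ε * ((Uf K y k).card : ℝ) := by positivity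
    linarith
  calc (H.index : ℝ) * ((J.card : ℝ) - ε * (Uf K y k).card) ≤
      H.index * (1 / H.index * (Uf K y k).card) := mul_le_mul_of_nonneg_left h10 h6.le
    _ = (Uf K y k).card := by field_simp

/-- robust bound for the diameter -/
theorem diameter (h2 : Module.finrank ℚ K = 2) {y k : ℕ} {ε : ℝ} (hε : 0 < ε) (hε2 : ε < 1 / 2)
    (h : Equi K y k ((ε / 4) ^ 2)) (T : Finset ℕ)
    (hT : 2 * k * ((nrms K y \ T).card : ℝ) ≤ (1 / 2 - ε) * (nrms K y).card)
    (c : ClassGroup (𝓞 K)) :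
    ∃ L : Multiset (nonZeroDivisors (Ideal (𝓞 K))),
      (∀ P ∈ L, (P : Ideal (𝓞 K)).IsPrime ∧ Ideal.absNorm (P : Ideal (𝓞 K)) ∈ T) ∧
      L.card = 2 * k ∧ (L.map (fun P => ClassGroup.mk0 P)).prod = c := by
  have hpos : 0 < (Uf K y k).card := by
    rw [← sum_Uf]; exact h.1
  have hR : (0 : ℝ) < (Uf K y k).card := by exact_mod_cast hpos
  set B := nrms K y \ T with hB
  have hBP : B ⊆ PP y := sdiff_subset.trans (filter_subset _ _)
  set bad := (Uf K y k).filter
    (fun I : nonZeroDivisors (Ideal (𝓞 K)) => ∃ p ∈ B, p ∣ Ideal.absNorm (I : Ideal (𝓞 K)))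
    with hbad
  set J := (Uf K y k).filter
    (fun I : nonZeroDivisors (Ideal (𝓞 K)) => ¬ ∃ p ∈ B, p ∣ Ideal.absNorm (I : Ideal (𝓞 K)))
    with hJdef
  have hav := avoid K h2 y k B hBP
  rw [← hbad] at hav
  have hsum : bad.card + J.card = (Uf K y k).card := card_filter_add_card_filter_not _
  have hJ : (1 / 2 + ε) * (Uf K y k).card ≤ (J.card : ℝ) := by
    have hb : (bad.card : ℝ) ≤ (1 / 2 - ε) * (Uf K y k).card := by
      rcases Nat.eq_zero_or_pos (nrms K y).card with h0 | h0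
      · have hB0 : B = ∅ := by
          have h3 : B.card ≤ (nrms K y).card := card_le_card sdiff_subset
          rw [h0] at h3
          exact card_eq_zero.1 (Nat.le_zero.1 h3)
        have hb0 : bad = ∅ := by
          rw [hbad, hB0]
          apply filter_eq_empty_iff.2
          rintro I _ ⟨p, hp, -⟩
          exact absurd hp (notMem_empty p)
        rw [hb0, card_empty]
        have h3 : 0 ≤ (1 / 2 - ε) * ((Uf K y k).card : ℝ) :=
          mul_nonneg (by linarith) hR.le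
        push_cast
        exact h3
      · have h0' : (0 : ℝ) < (nrms K y).card := by exact_mod_cast h0
        have h3 : ((nrms K y).card : ℝ) * bad.card ≤
            (1 / 2 - ε) * (nrms K y).card * (Uf K y k).card :=
          hav.trans (mul_le_mul_of_nonneg_right hT hR.le)
        have h4 : ((nrms K y).card : ℝ) * bad.card ≤
            (nrms K y).card * ((1 / 2 - ε) * (Uf K y k).card) := by
          refine h3.trans (le_of_eq ?_)
          ring
        exact le_of_mul_le_mul_left h4 h0'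
    have h5 : ((bad.card : ℕ) : ℝ) + (J.card : ℝ) = (Uf K y k).card := by exact_mod_cast hsum
    linarith
  have hm := majority K hε h J (filter_subset _ _) hJ c
  have hpos2 : (0 : ℝ) < (((J ×ˢ J).filter
      (fun z => ClassGroup.mk0 z.1 * ClassGroup.mk0 z.2 = c)).card : ℝ) := by
    refine lt_of_lt_of_le ?_ hm
    have : (0 : ℝ) < Nat.card (ClassGroup (𝓞 K)) := by exact_mod_cast Nat.card_pos
    positivity
  obtain ⟨⟨I, I'⟩, hz⟩ := card_pos.1 (Nat.cast_pos.1 hpos2)
  obtain ⟨h6, h7⟩ := mem_filter.1 hz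
  obtain ⟨hI, hI'⟩ := mem_product.1 h6
  have hfac : ∀ A ∈ J, ∃ L : Multiset (nonZeroDivisors (Ideal (𝓞 K))),
      (∀ P ∈ L, (P : Ideal (𝓞 K)).IsPrime ∧ Ideal.absNorm (P : Ideal (𝓞 K)) ∈ T) ∧
      L.card = k ∧ (L.map (fun P => ClassGroup.mk0 P)).prod = ClassGroup.mk0 A := by
    intro A hA
    obtain ⟨hAU, hAB⟩ := mem_filter.1 hA
    obtain ⟨s, hs, hAs⟩ := (mem_Uf K).1 hAU
    obtain ⟨L, l1, l2, l3⟩ := factor K s (prime_of_mem hs) A hAs
    refine ⟨L, fun P hP => ⟨(l1 P hP).1, ?_⟩, by rw [l2, (mem_powersetCard.1 hs).2], l3⟩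
    by_contra hPT
    apply hAB
    refine ⟨Ideal.absNorm (P : Ideal (𝓞 K)), ?_, ?_⟩
    · rw [hB, mem_sdiff]
      refine ⟨?_, hPT⟩
      unfold nrms
      exact mem_filter.2 ⟨(mem_powersetCard.1 hs).1 (l1 P hP).2, P, rfl⟩
    · rw [hAs]
      exact dvd_prod_of_mem _ (l1 P hP).2
  obtain ⟨L, l1, l2, l3⟩ := hfac I hI
  obtain ⟨L', l1', l2', l3'⟩ := hfac I' hI'
  refine ⟨L + L', fun P hP => ?_, ?_, ?_⟩
  · rcases Multiset.mem_add.1 hP with h8 | h8
    · exact l1 P h8
    · exact l1' P h8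
  · rw [Multiset.card_add, l2, l2']
    ring
  · rw [Multiset.map_add, Multiset.prod_add, l3, l3']
    exact h7

end

end Pool.Agent.Q130.RG
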